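import Pool.Agent.N822.OG.Stm

/-!
# Project OG: finite facts about the graph, by computation in the kernel
-/

set_option autoImplicit false

namespace Pool.Agent.N865.OG

open Pool.Agent.N822.OG SimpleGraph

/-- indicator of a monochromatic pair -/
def m (a b : ℕ) : ℕ := (Nat.beq a b).toNat

/-- indicator of a pair of colour `a` -/
def mm (a x y : ℕ) : ℕ := (Nat.beq x a && Nat.beq y a).toNat

/-- all colours -/
def al (f : ℕ → Bool) : Bool := f 0 && f 1 && f 2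

theorem al_spec {f : ℕ → Bool} (h : al f = true) {i : ℕ} (hi : i < 3) : f i = true := by
  simp only [al, Bool.and_eq_true] at h
  obtain ⟨⟨h0, h1⟩, h2⟩ := h
  interval_cases i <;> assumption

/-- arcs among the vertices 0, 1, 3, 4, 5, 6 -/
def s1 (c0 c1 c3 c4 c5 c6 : ℕ) : ℕ :=
  m c5 c0 + m c5 c1 + m c3 c5 + m c4 c5 + m c5 c6 + m c1 c3 + m c0 c4 + m c6 c0 + m c6 c1 +
      m c6 c3 + m c6 c4

/-- further arcs at the vertex 7 -/
def s2 (c0 c1 c3 c4 c5 c7 : ℕ) : ℕ := m c7 c5 + m c7 c0 + m c7 c1 + m c7 c3 + m c7 c4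

/-- further arcs at the vertex 2 -/
def s3 (c0 c1 c2 c6 c7 : ℕ) : ℕ := m c0 c2 + m c1 c2 + m c6 c2 + m c7 c2

/-- further arcs at the vertex 8 -/
def s4 (c3 c4 c6 c8 : ℕ) : ℕ := m c8 c3 + m c8 c4 + m c6 c8

/-- arcs of colour `a` among the vertices 0, 1, 3, 4, 5, 6 -/
def t1 (a c0 c1 c3 c4 c5 c6 : ℕ) : ℕ :=
  mm a c5 c0 + mm a c5 c1 + mm a c3 c5 + mm a c4 c5 + mm a c5 c6 + mm a c1 c3 +
      mm a c0 c4 + mm a c6 c0 + mm a c6 c1 + mm a c6 c3 + mm a c6 c4

/-- further arcs of colour `a` at the vertex 7 -/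
def t2 (a c0 c1 c3 c4 c5 c7 : ℕ) : ℕ :=
  mm a c7 c5 + mm a c7 c0 + mm a c7 c1 + mm a c7 c3 + mm a c7 c4

/-- further arcs of colour `a` at the vertex 2 -/
def t3 (a c0 c1 c2 c6 c7 : ℕ) : ℕ := mm a c0 c2 + mm a c1 c2 + mm a c6 c2 + mm a c7 c2

/-- further arcs of colour `a` at the vertex 8 -/
def t4 (a c3 c4 c6 c8 : ℕ) : ℕ := mm a c8 c3 + mm a c8 c4 + mm a c6 c8

/-- the two patterns -/
def pat (c0 c1 c3 c4 c5 c6 c8 : ℕ) : Bool :=
  (Nat.beq c1 c3 && Nat.beq c4 c5 && Nat.beq c6 c8 && !Nat.beq c1 c4 && !Nat.beq c1 c6 &&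
    !Nat.beq c4 c6) ||
  (Nat.beq c0 c4 && Nat.beq c3 c5 && Nat.beq c6 c8 && !Nat.beq c0 c3 && !Nat.beq c0 c6 &&
    !Nat.beq c3 c6)

/-- the test for the first fact -/
def K1 : Bool := al fun c5 => al fun c6 => al fun c1 => al fun c3 => al fun c0 => al fun c4 =>
  Nat.ble 2 (s1 c0 c1 c3 c4 c5 c6) || al fun c7 =>
    Nat.ble 2 (s1 c0 c1 c3 c4 c5 c6 + s2 c0 c1 c3 c4 c5 c7) || al fun c2 => al fun c8 =>
      Nat.ble 2 (s1 c0 c1 c3 c4 c5 c6 + s2 c0 c1 c3 c4 c5 c7 + s3 c0 c1 c2 c6 c7 + s4 c3 c4 c6 c8)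

/-- the test for the second fact -/
def K2 : Bool := al fun c5 => al fun c6 => al fun c1 => al fun c3 => al fun c0 => al fun c4 =>
  !(al fun a => Nat.ble (t1 a c0 c1 c3 c4 c5 c6) 1) || al fun c7 =>
    !(al fun a => Nat.ble (t1 a c0 c1 c3 c4 c5 c6 + t2 a c0 c1 c3 c4 c5 c7) 1) ||
      al fun c2 => al fun c8 =>
      !(al fun a => Nat.ble (t1 a c0 c1 c3 c4 c5 c6 + t2 a c0 c1 c3 c4 c5 c7 +
        t3 a c0 c1 c2 c6 c7 + t4 a c3 c4 c6 c8) 1) || pat c0 c1 c3 c4 c5 c6 c8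

theorem K1_true : K1 = true := by decide +kernel

theorem K2_true : K2 = true := by decide +kernel


theorem beq_false (a b : ℕ) : Nat.beq a b = false ↔ a ≠ b := by
  rw [← Bool.not_eq_true, Nat.beq_eq]

theorem ofNat9 : (Fin.ofNat 9 0 = 0 ∧ Fin.ofNat 9 1 = 1 ∧ Fin.ofNat 9 2 = 2) ∧
    (Fin.ofNat 9 3 = 3 ∧ Fin.ofNat 9 4 = 4 ∧ Fin.ofNat 9 5 = 5) ∧
    (Fin.ofNat 9 6 = 6 ∧ Fin.ofNat 9 7 = 7 ∧ Fin.ofNat 9 8 = 8) := by decide

theorem nbad_eq (c : Fin 9 → Fin 3) : nbad c =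
    s1 (c 0) (c 1) (c 3) (c 4) (c 5) (c 6) + s2 (c 0) (c 1) (c 3) (c 4) (c 5) (c 7) +
      s3 (c 0) (c 1) (c 2) (c 6) (c 7) + s4 (c 3) (c 4) (c 6) (c 8) := by
  unfold nbad
  rw [← List.countP_eq_length_filter]
  have hm : ∀ i j : Fin 9, (if decide (c i = c j) = true then 1 else 0) = m (c i) (c j) := by
    intro i j
    unfold m
    by_cases h : c i = c j
    · simp [h]
    · have h2 : (c i : ℕ) ≠ (c j : ℕ) := fun e => h (Fin.ext e)
      rw [(beq_false _ _).2 h2]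
      simp [h]
  obtain ⟨⟨e0, e1, e2⟩, ⟨e3, e4, e5⟩, e6, e7, e8⟩ := ofNat9
  simp only [arcs, List.countP_cons, List.countP_nil, hm, e0, e1, e2, e3, e4, e5, e6, e7, e8]
  unfold s1 s2 s3 s4
  omega

/-- every 3-colouring has at least two monochromatic arcs -/
theorem fc1 : S_FC1 := by
  intro c
  rw [nbad_eq]
  have h := K1_true
  unfold K1 at h
  have h1 := al_spec (al_spec (al_spec (al_spec (al_spec (al_spec h (c 5).isLt) (c 6).isLt)
    (c 1).isLt) (c 3).isLt) (c 0).isLt) (c 4).isLt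
  simp only [Bool.or_eq_true, Nat.ble_eq] at h1
  rcases h1 with h1 | h1
  · omega
  · have h2 := al_spec h1 (c 7).isLt
    simp only [Bool.or_eq_true, Nat.ble_eq] at h2
    rcases h2 with h2 | h2
    · omega
    · have h3 := al_spec (al_spec h2 (c 2).isLt) (c 8).isLt
      simpa only [Nat.ble_eq] using h3

/-- number of arcs of colour `a` -/
def na (c : Fin 9 → Fin 3) (a : ℕ) : ℕ :=
  (arcs.filter fun e => decide ((c (Fin.ofNat 9 e.1) : ℕ) = a ∧
    (c (Fin.ofNat 9 e.2) : ℕ) = a)).length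

theorem na_eq (c : Fin 9 → Fin 3) (a : ℕ) : na c a =
    t1 a (c 0) (c 1) (c 3) (c 4) (c 5) (c 6) + t2 a (c 0) (c 1) (c 3) (c 4) (c 5) (c 7) +
      t3 a (c 0) (c 1) (c 2) (c 6) (c 7) + t4 a (c 3) (c 4) (c 6) (c 8) := by
  unfold na
  rw [← List.countP_eq_length_filter]
  have hm : ∀ i j : Fin 9, (if decide ((c i : ℕ) = a ∧ (c j : ℕ) = a) = true then 1 else 0) =
      mm a (c i) (c j) := by
    intro i j
    unfold mm
    by_cases h : (c i : ℕ) = a
    · by_cases h' : (c j : ℕ) = a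
      · simp [h, h']
      · rw [(beq_false _ _).2 h']
        simp [h']
    · rw [(beq_false _ _).2 h]
      simp [h]
  obtain ⟨⟨e0, e1, e2⟩, ⟨e3, e4, e5⟩, e6, e7, e8⟩ := ofNat9
  simp only [arcs, List.countP_cons, List.countP_nil, hm, e0, e1, e2, e3, e4, e5, e6, e7, e8]
  unfold t1 t2 t3 t4
  omega

theorem arcs_lt : ∀ e ∈ arcs, e.1 < 9 ∧ e.2 < 9 := by decide

theorem arcs_nodup : arcs.Nodup := by decide

theorem na_le (c : Fin 9 → Fin 3)
    (h : ∀ i j k l : Fin 9, Dv i j → Dv k l → c i = c j → c k = c l → c i = c k →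
      i = k ∧ j = l) (a : ℕ) : na c a ≤ 1 := by
  unfold na
  have hnd : (arcs.filter fun e => decide ((c (Fin.ofNat 9 e.1) : ℕ) = a ∧
    (c (Fin.ofNat 9 e.2) : ℕ) = a)).Nodup := arcs_nodup.filter _
  rw [← List.toFinset_card_of_nodup hnd, Finset.card_le_one]
  have key : ∀ e : ℕ × ℕ, e ∈ arcs → Dv (Fin.ofNat 9 e.1) (Fin.ofNat 9 e.2) := by
    intro e he
    have h9 := arcs_lt e he
    unfold Dv
    have h1 : ((Fin.ofNat 9 e.1 : Fin 9) : ℕ) = e.1 := Nat.mod_eq_of_lt h9.1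
    have h2 : ((Fin.ofNat 9 e.2 : Fin 9) : ℕ) = e.2 := Nat.mod_eq_of_lt h9.2
    rw [h1, h2]
    exact he
  intro e he e' he'
  simp only [List.mem_toFinset, List.mem_filter, decide_eq_true_eq] at he he'
  have h1 := h _ _ _ _ (key e he.1) (key e' he'.1)
    (Fin.ext (he.2.1.trans he.2.2.symm)) (Fin.ext (he'.2.1.trans he'.2.2.symm))
    (Fin.ext (he.2.1.trans he'.2.1.symm))
  have h9 := arcs_lt e he.1
  have h9' := arcs_lt e' he'.1
  have q1 : e.1 = e'.1 := by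
    have := congrArg Fin.val h1.1
    change e.1 % 9 = e'.1 % 9 at this
    rwa [Nat.mod_eq_of_lt h9.1, Nat.mod_eq_of_lt h9'.1] at this
  have q2 : e.2 = e'.2 := by
    have := congrArg Fin.val h1.2
    change e.2 % 9 = e'.2 % 9 at this
    rwa [Nat.mod_eq_of_lt h9.2, Nat.mod_eq_of_lt h9'.2] at this
  exact Prod.ext q1 q2

/-- the colourings with at most one arc in each class -/
theorem fc2 : S_FC2 := by
  intro c hc
  have hn : ∀ a, na c a ≤ 1 := na_le c hc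
  have h := K2_true
  unfold K2 at h
  have h1 := al_spec (al_spec (al_spec (al_spec (al_spec (al_spec h (c 5).isLt) (c 6).isLt)
    (c 1).isLt) (c 3).isLt) (c 0).isLt) (c 4).isLt
  rw [Bool.or_eq_true] at h1
  rcases h1 with h1 | h1
  · exfalso
    rw [Bool.not_eq_true', ← Bool.not_eq_true] at h1
    apply h1
    simp only [al, Bool.and_eq_true, Nat.ble_eq]
    have q0 := hn 0
    have q1 := hn 1
    have q2 := hn 2
    rw [na_eq] at q0 q1 q2
    refine ⟨⟨?_, ?_⟩, ?_⟩ <;> omega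
  · have h2 := al_spec h1 (c 7).isLt
    rw [Bool.or_eq_true] at h2
    rcases h2 with h2 | h2
    · exfalso
      rw [Bool.not_eq_true', ← Bool.not_eq_true] at h2
      apply h2
      simp only [al, Bool.and_eq_true, Nat.ble_eq]
      have q0 := hn 0
      have q1 := hn 1
      have q2 := hn 2
      rw [na_eq] at q0 q1 q2
      refine ⟨⟨?_, ?_⟩, ?_⟩ <;> omega
    · have h3 := al_spec (al_spec h2 (c 2).isLt) (c 8).isLt
      rw [Bool.or_eq_true] at h3
      rcases h3 with h3 | h3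
      · exfalso
        rw [Bool.not_eq_true', ← Bool.not_eq_true] at h3
        apply h3
        simp only [al, Bool.and_eq_true, Nat.ble_eq]
        have q0 := hn 0
        have q1 := hn 1
        have q2 := hn 2
        rw [na_eq] at q0 q1 q2
        refine ⟨⟨?_, ?_⟩, ?_⟩ <;> omega
      · simp only [pat, Bool.or_eq_true, Bool.and_eq_true, Bool.not_eq_true', Nat.beq_eq,
          beq_false] at h3
        simp only [Fin.ext_iff, ne_eq]
        tauto

/-- a colouring with four colours -/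
def col4 : Fin 9 → Fin 4 := ![0, 0, 1, 1, 1, 2, 3, 3, 0]

theorem colorable4 : Hg.Colorable 4 :=
  ⟨SimpleGraph.Coloring.mk col4 (by decide)⟩

theorem not_colorable3 : ¬ Hg.Colorable 3 := by
  rintro ⟨C⟩
  have h := fc1 (fun i => C i)
  unfold nbad at h
  have h0 : (arcs.filter fun e => decide (C (Fin.ofNat 9 e.1) = C (Fin.ofNat 9 e.2))) = [] := by
    rw [List.filter_eq_nil_iff]
    intro e he
    have h9 := arcs_lt e he
    have hadj : Hg.Adj (Fin.ofNat 9 e.1) (Fin.ofNat 9 e.2) := by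
      left
      unfold Dv
      have h1 : ((Fin.ofNat 9 e.1 : Fin 9) : ℕ) = e.1 := Nat.mod_eq_of_lt h9.1
      have h2 : ((Fin.ofNat 9 e.2 : Fin 9) : ℕ) = e.2 := Nat.mod_eq_of_lt h9.2
      rw [h1, h2]
      exact he
    simpa using C.valid hadj
  rw [h0] at h
  simp at h

/-- the chromatic number -/
theorem chr : S_CHR := by
  unfold S_CHR
  refine le_antisymm colorable4.chromaticNumber_le ?_
  by_contra hlt
  rw [not_le] at hlt
  apply not_colorable3
  have h3 : Hg.chromaticNumber ≤ (3 : ℕ) := by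
    refine ENat.lt_natCast_add_one_iff.1 ?_
    have e4 : ((3 : ℕ) : ℕ∞) + 1 = 4 := by norm_num
    rw [e4]
    exact hlt
  exact SimpleGraph.chromaticNumber_le_iff_colorable.1 h3

/-- the 23 arcs are an orientation of the graph -/
theorem isOri : IsOri Hg Dv := by
  constructor
  · intro u v h
    exact Or.inl h
  · decide

end Pool.Agent.N865.OG
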